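import Pool.Agent.Helper60.SB.Defs4
import Pool.Agent.Helper77.SB.U3

/-! Module M11 of MP_7fc85e_an: Gaussian polynomials with weights
(as module U3, with the variance `∑ ζ_k^2`). -/

open Finset MeasureTheory
open scoped ENNReal Real

namespace Pool.Agent.Helper60.SB

open Pool.Agent.Helper77.SB

lemma wt_sq_w {d : ℕ} (Q : Finset (Fin d → ℤ)) (ζ : (Fin d → ℤ) → ℝ) (x : Fin d → ℝ)
    (c : Bool × Bool) :
    ∑ a : Q × Bool, (ζ a.1 * Helper77.SB.wt Q x c a) ^ 2 = ∑ k ∈ Q, ζ k ^ 2 := by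
  rw [Fintype.sum_prod_type]
  have h1 : ∀ k : Q, ∑ b : Bool, (ζ k * Helper77.SB.wt Q x c (k, b)) ^ 2 = ζ k ^ 2 := by
    intro k
    have h2 := Real.sin_sq_add_cos_sq (ph (k : Fin d → ℤ) x)
    rcases c with ⟨c1, c2⟩
    have h3 : Helper77.SB.wt Q x (c1, c2) (k, true) ^ 2 + Helper77.SB.wt Q x (c1, c2) (k, false) ^ 2 = 1 := by
      cases c1 <;> cases c2 <;> simp [Helper77.SB.wt]
    rw [Fintype.sum_bool, mul_pow, mul_pow, ← mul_add, h3, mul_one]
  simp only [h1]
  exact Finset.sum_coe_sort Q (fun k => ζ k ^ 2)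

lemma cco_le_w {d : ℕ} {Q : Finset (Fin d → ℤ)} (ζ : (Fin d → ℤ) → ℝ) (y : Q × Bool → ℝ) :
    ∑ k : Q, ‖cco (fun i : Q × Bool => ζ i.1 * y i) k‖ ≤
      ∑ a : Q × Bool, |ζ a.1| * (Real.exp (y a) + Real.exp (-y a)) := by
  rw [Fintype.sum_prod_type]
  refine Finset.sum_le_sum fun k _ => ?_
  rw [Fintype.sum_bool]
  have h1 : ∀ t : ℝ, |t| ≤ Real.exp t + Real.exp (-t) := by
    intro t
    rcases abs_cases t with ⟨h, _⟩ | ⟨h, _⟩
    · rw [h]; linarith [Real.add_one_le_exp t, Real.exp_pos (-t)]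
    · rw [h]; linarith [Real.add_one_le_exp (-t), Real.exp_pos t]
  have h2 : ‖cco (fun i : Q × Bool => ζ i.1 * y i) k‖ ≤
      |ζ k * y (k, false)| + |ζ k * y (k, true)| := by
    unfold cco
    refine (norm_add_le _ _).trans ?_
    rw [norm_mul, Complex.norm_I, mul_one, Complex.norm_real, Complex.norm_real]
    exact le_refl _
  rw [abs_mul, abs_mul] at h2
  have h3 := mul_le_mul_of_nonneg_left (h1 (y (k, false))) (abs_nonneg (ζ k))
  have h4 := mul_le_mul_of_nonneg_left (h1 (y (k, true))) (abs_nonneg (ζ k))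
  simp only
  linarith

set_option maxHeartbeats 1000000 in
theorem gauss_sup_w (d : ℕ) : ∃ C : ℝ, 0 < C ∧ ∀ (m : ℕ) (Q : Finset (Fin d → ℤ))
    (ζ : (Fin d → ℤ) → ℝ), (∀ k ∈ Q, ∀ j, |k j| ≤ 2 ^ m) →
    ∫ y, supn Q (fun i => ζ i.1 * y i) ∂(gau (Q × Bool)) ≤
      C * Real.sqrt ((∑ k ∈ Q, ζ k ^ 2) * (m + 1)) := by
  classical
  -- constant for the logarithm of the number of functionals
  set D : ℝ := Real.log 4 + d * (Real.log (7 * (d + 1)) + 1 + 2 * d) with hD
  have hlog4 : 0 < Real.log 4 := Real.log_pos (by norm_num)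
  have hlogd : 0 < Real.log (7 * ((d : ℝ) + 1)) := by
    apply Real.log_pos
    have : (0 : ℝ) ≤ d := Nat.cast_nonneg d
    linarith
  have hD0 : 0 < D := by
    rw [hD]; positivity
  refine ⟨2 * Real.sqrt (2 * D) + 4 * Real.exp (1 / 2), by positivity, ?_⟩
  intro m Q ζ hQ
  set V : ℝ := ∑ k ∈ Q, ζ k ^ 2 with hV
  have hV0 : 0 ≤ V := Finset.sum_nonneg fun k _ => sq_nonneg _
  rcases hV0.eq_or_lt with hVz | hVpos
  · -- trivial case
    have hz : ∀ k ∈ Q, ζ k = 0 := by
      intro k hk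
      have := (Finset.sum_eq_zero_iff_of_nonneg (fun k _ => sq_nonneg (ζ k))).1 hVz.symm k hk
      exact pow_eq_zero_iff (two_ne_zero) |>.1 this
    have h0 : ∀ y : Q × Bool → ℝ, supn Q (fun i : Q × Bool => ζ i.1 * y i) ≤ 0 := by
      intro y
      have h1 : (fun i : Q × Bool => ζ i.1 * y i) = 0 := by
        funext i
        rw [hz _ i.1.2]
        simp
      rw [h1, map_zero]
    have h1 : ∫ y, supn Q (fun i : Q × Bool => ζ i.1 * y i) ∂(gau (Q × Bool)) ≤ 0 :=
      integral_nonpos h0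
    refine h1.trans (by positivity)
  have hQne : Q.Nonempty := by
    rcases Q.eq_empty_or_nonempty with h | h
    · rw [hV, h] at hVpos
      simp at hVpos
    · exact h
  have hq1 : 1 ≤ Q.card := hQne.card_pos
  have hq1' : (1 : ℝ) ≤ Q.card := by exact_mod_cast hq1
  have hq0 : (0 : ℝ) < Q.card := by linarith
  -- number of frequencies
  set Nb : ℕ := (2 * 2 ^ m + 1) ^ d with hNb
  have hcard : Q.card ≤ Nb := by
    have hsub : Q ⊆ Fintype.piFinset fun _ => Finset.Icc (-2 ^ m : ℤ) (2 ^ m) := by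
      intro k hk
      rw [Fintype.mem_piFinset]
      intro j
      rw [Finset.mem_Icc]
      exact abs_le.1 (hQ k hk j)
    refine (Finset.card_le_card hsub).trans (le_of_eq ?_)
    rw [Fintype.card_piFinset_const, Int.card_Icc, hNb]
    congr 1
    have : (2 ^ m + 1 - (-2 ^ m) : ℤ) = ((2 * 2 ^ m + 1 : ℕ) : ℤ) := by push_cast; ring
    rw [this, Int.toNat_natCast]
  set n : ℕ := 7 * (d + 1) * 2 ^ m * Nb with hn
  have hNbpos : 0 < Nb := by positivity
  have hnpos : 0 < n := by positivity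
  have hn0 : (0 : ℝ) < n := by exact_mod_cast hnpos
  -- mesh
  have hmesh : (d : ℝ) * 2 ^ m * (2 * π / n) ≤ (Q.card : ℝ)⁻¹ := by
    rw [← mul_div_assoc, div_le_iff₀ hn0, inv_mul_eq_div, le_div_iff₀ hq0]
    have h1 : (Q.card : ℝ) ≤ Nb := by exact_mod_cast hcard
    have h2 : (n : ℝ) = 7 * ((d : ℝ) + 1) * 2 ^ m * Nb := by rw [hn]; push_cast; ring
    rw [h2]
    have h3 : 2 * π ≤ 7 := by linarith [Real.pi_lt_d2]
    have hd0 : (0 : ℝ) ≤ d := Nat.cast_nonneg d
    calc (d : ℝ) * 2 ^ m * (2 * π) * Q.card ≤ (d : ℝ) * 2 ^ m * 7 * Nb := by gcongr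
      _ ≤ 7 * ((d : ℝ) + 1) * 2 ^ m * Nb := by
        have : (0 : ℝ) ≤ 7 * 2 ^ m * Nb := by positivity
        nlinarith
  -- number of functionals
  set P : ℝ := 4 * (n : ℝ) ^ d with hP
  have hP4 : 4 ≤ P := by
    rw [hP]
    have : (1 : ℝ) ≤ (n : ℝ) ^ d := one_le_pow₀ (by exact_mod_cast hnpos)
    linarith
  have hlogP : Real.log P ≤ D * (m + 1) := by
    have h1 : Real.log P = Real.log 4 + d * Real.log n := by
      rw [hP, Real.log_mul (by norm_num) (by positivity), Real.log_pow]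
    have h2 : Real.log n ≤ Real.log (7 * (d + 1)) + m + d * (m + 2) := by
      have h3 : (n : ℝ) = (7 * ((d : ℝ) + 1)) * 2 ^ m * Nb := by rw [hn]; push_cast; ring
      rw [h3, Real.log_mul (by positivity) (by positivity), Real.log_mul (by positivity)
        (by positivity), Real.log_pow]
      have h4 : Real.log Nb ≤ d * (m + 2) := by
        have h5 : (Nb : ℝ) = (2 * 2 ^ m + 1 : ℝ) ^ d := by rw [hNb]; push_cast; ring
        rw [h5, Real.log_pow]
        apply mul_le_mul_of_nonneg_left _ (Nat.cast_nonneg d)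
        have h6 : (2 * 2 ^ m + 1 : ℝ) ≤ 2 ^ (m + 2) := by
          have : (1 : ℝ) ≤ 2 ^ m := one_le_pow₀ (by norm_num)
          rw [pow_add]; linarith
        refine (Real.log_le_log (by positivity) h6).trans ?_
        rw [Real.log_pow]
        have h7 : Real.log 2 ≤ 1 := by linarith [Real.log_two_lt_d9]
        push_cast
        nlinarith [Real.log_pos one_lt_two, (Nat.cast_nonneg m : (0 : ℝ) ≤ m)]
      have h8 : (m : ℝ) * Real.log 2 ≤ m := by
        have h7 : Real.log 2 ≤ 1 := by linarith [Real.log_two_lt_d9]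
        nlinarith [(Nat.cast_nonneg m : (0 : ℝ) ≤ m)]
      linarith
    rw [h1, hD]
    have hd0 : (0 : ℝ) ≤ d := Nat.cast_nonneg d
    have hm0 : (0 : ℝ) ≤ m := Nat.cast_nonneg m
    have h9 : (d : ℝ) * Real.log n ≤ d * (Real.log (7 * (d + 1)) + m + d * (m + 2)) :=
      mul_le_mul_of_nonneg_left h2 hd0
    have h10 : (0 : ℝ) ≤ Real.log 4 * m := by positivity
    have h11 : (0 : ℝ) ≤ d * (Real.log (7 * (d + 1)) * m) := by positivity
    have h12 : (0 : ℝ) ≤ (d : ℝ) * d * m := by positivity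
    nlinarith
  have hlogP0 : 0 < Real.log P := Real.log_pos (by linarith)
  set l : ℝ := Real.sqrt (2 * Real.log P / V) with hl
  have hl0 : 0 < l := Real.sqrt_pos.2 (by positivity)
  have hl2 : l ^ 2 * V = 2 * Real.log P := by
    rw [hl, Real.sq_sqrt (by positivity)]
    field_simp
  set A : ℝ := P * Real.exp (l ^ 2 * V / 2) with hA
  have hA0 : 0 < A := by positivity
  -- the dominating function
  set g : (Q × Bool → ℝ) → ℝ := fun y => 2 * (l⁻¹ * (Real.log A - 1 +
      A⁻¹ * ∑ i : Fin d → Fin n, ∑ c : Bool × Bool,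
        Real.exp (∑ a, (l * (ζ a.1 * Helper77.SB.wt Q (grd n i) c a)) * y a))) +
        (∑ a : Q × Bool, |ζ a.1| * (Real.exp (1 * y a) + Real.exp ((-1) * y a))) *
          (Q.card : ℝ)⁻¹ with hg
  have hdom : ∀ y, supn Q (fun i => ζ i.1 * y i) ≤ g y := by
    intro y
    set y' : Q × Bool → ℝ := fun i => ζ i.1 * y i with hy'
    apply supn_le
    intro x
    obtain ⟨i, x', h1, h2⟩ := exists_grd n hnpos x
    have h3 : TT Q y' x' = TT Q y' (grd n i) := by
      unfold TT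
      exact Finset.sum_congr rfl fun k _ => by rw [h1]
    have h4 : ‖TT Q y' x - TT Q y' x'‖ ≤ (∑ k : Q, ‖cco y' k‖) * (Q.card : ℝ)⁻¹ := by
      apply TT_sub_le
      intro k hk
      refine (ex_sub_le k x x').trans (le_trans ?_ hmesh)
      calc ∑ j, |(k j : ℝ)| * |x j - x' j| ≤ ∑ _j : Fin d, (2 : ℝ) ^ m * (2 * π / n) := by
            refine Finset.sum_le_sum fun j _ => ?_
            apply mul_le_mul _ (h2 j) (abs_nonneg _) (by positivity)
            have := hQ k hk j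
            have h5 : ((|k j| : ℤ) : ℝ) ≤ ((2 ^ m : ℤ) : ℝ) := by exact_mod_cast this
            push_cast at h5
            exact h5
        _ = _ := by simp; ring
    have h5 := TT_le_exp Q y' n i l A hl0 hA0
    have h5' : ∀ (i : Fin d → Fin n) (c : Bool × Bool),
        ∑ a, (l * Helper77.SB.wt Q (grd n i) c a) * y' a =
          ∑ a : Q × Bool, (l * (ζ a.1 * Helper77.SB.wt Q (grd n i) c a)) * y a := by
      intro i c
      refine Finset.sum_congr rfl fun a _ => ?_
      simp only [hy']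
      ring
    simp only [h5'] at h5
    have h6 : ‖TT Q y' x‖ ≤ ‖TT Q y' x'‖ + ‖TT Q y' x - TT Q y' x'‖ := by
      have := norm_add_le (TT Q y' x') (TT Q y' x - TT Q y' x')
      simpa using this
    rw [h3] at h6
    have h7 : (∑ k : Q, ‖cco y' k‖) * (Q.card : ℝ)⁻¹ ≤
        (∑ a : Q × Bool, |ζ a.1| * (Real.exp (1 * y a) + Real.exp ((-1) * y a))) *
          (Q.card : ℝ)⁻¹ := by
      apply mul_le_mul_of_nonneg_right _ (by positivity)
      simpa using cco_le_w ζ y
    simp only [hg]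
    rw [h3] at h4
    linarith
  -- integrability and integral of the dominating function
  have hI1 : ∀ (i : Fin d → Fin n) (c : Bool × Bool),
      Integrable (fun y : Q × Bool → ℝ =>
        Real.exp (∑ a, (l * (ζ a.1 * Helper77.SB.wt Q (grd n i) c a)) * y a))
        (gau (Q × Bool)) := fun i c => (gau_mgf _).1
  have hI2 : ∀ (i : Fin d → Fin n) (c : Bool × Bool),
      ∫ y : Q × Bool → ℝ, Real.exp (∑ a, (l * (ζ a.1 * Helper77.SB.wt Q (grd n i) c a)) * y a)
        ∂(gau (Q × Bool)) = Real.exp (l ^ 2 * V / 2) := by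
    intro i c
    rw [(gau_mgf _).2]
    congr 2
    rw [hV, ← wt_sq_w Q ζ (grd n i) c, Finset.mul_sum]
    exact Finset.sum_congr rfl fun a _ => by ring
  have : IsProbabilityMeasure (gau (Q × Bool)) := by unfold gau; infer_instance
  have hJ1 : Integrable (fun y : Q × Bool → ℝ => ∑ i : Fin d → Fin n, ∑ c : Bool × Bool,
        Real.exp (∑ a, (l * (ζ a.1 * Helper77.SB.wt Q (grd n i) c a)) * y a)) (gau (Q × Bool)) :=
    integrable_finsetSum _ fun i _ => integrable_finsetSum _ fun c _ => hI1 i c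
  have hJ2 : ∫ y : Q × Bool → ℝ, (∑ i : Fin d → Fin n, ∑ c : Bool × Bool,
        Real.exp (∑ a, (l * (ζ a.1 * Helper77.SB.wt Q (grd n i) c a)) * y a)) ∂(gau (Q × Bool)) = A := by
    rw [integral_finsetSum _ fun i _ => integrable_finsetSum _ fun c _ => hI1 i c]
    have : ∀ i : Fin d → Fin n, ∫ y : Q × Bool → ℝ, (∑ c : Bool × Bool,
        Real.exp (∑ a, (l * (ζ a.1 * Helper77.SB.wt Q (grd n i) c a)) * y a)) ∂(gau (Q × Bool)) =
        4 * Real.exp (l ^ 2 * V / 2) := by
      intro i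
      rw [integral_finsetSum _ fun c _ => hI1 i c, Finset.sum_congr rfl fun c _ => hI2 i c]
      simp
    rw [Finset.sum_congr rfl fun i _ => this i]
    simp only [Finset.sum_const, Finset.card_univ, Fintype.card_pi, Fintype.card_fin,
      Finset.prod_const, nsmul_eq_mul, hA, hP]
    push_cast
    ring
  have hK : ∀ (a : Q × Bool) (s : ℝ),
      Integrable (fun y : Q × Bool → ℝ => Real.exp (s * y a)) (gau (Q × Bool)) := fun a s =>
    (exp_coord a s).1
  have hK2 : ∀ a : Q × Bool, Integrable (fun y : Q × Bool → ℝ =>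
      |ζ a.1| * (Real.exp (1 * y a) + Real.exp ((-1) * y a))) (gau (Q × Bool)) := fun a =>
    ((hK a 1).add (hK a (-1))).const_mul _
  have hL1 : Integrable (fun y : Q × Bool → ℝ => ∑ a : Q × Bool,
      |ζ a.1| * (Real.exp (1 * y a) + Real.exp ((-1) * y a))) (gau (Q × Bool)) :=
    integrable_finsetSum _ fun a _ => hK2 a
  have hL2 : ∫ y : Q × Bool → ℝ, (∑ a : Q × Bool,
      |ζ a.1| * (Real.exp (1 * y a) + Real.exp ((-1) * y a))) ∂(gau (Q × Bool)) =
        4 * Real.exp (1 / 2) * ∑ k ∈ Q, |ζ k| := by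
    rw [integral_finsetSum _ fun a _ => hK2 a]
    have : ∀ a : Q × Bool, ∫ y : Q × Bool → ℝ,
        |ζ a.1| * (Real.exp (1 * y a) + Real.exp ((-1) * y a))
        ∂(gau (Q × Bool)) = |ζ a.1| * (2 * Real.exp (1 / 2)) := by
      intro a
      rw [integral_const_mul, integral_add (hK a 1) (hK a (-1)), (exp_coord a 1).2,
        (exp_coord a (-1)).2]
      norm_num
      left
      ring
    rw [Finset.sum_congr rfl fun a _ => this a, Fintype.sum_prod_type]
    simp only [Fintype.sum_bool]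
    rw [Finset.sum_coe_sort Q (fun k => |ζ k| * (2 * Real.exp (1 / 2)) +
      |ζ k| * (2 * Real.exp (1 / 2))), Finset.mul_sum]
    exact Finset.sum_congr rfl fun k _ => by ring
  have hM1 : Integrable (fun y : Q × Bool → ℝ => A⁻¹ * ∑ i : Fin d → Fin n, ∑ c : Bool × Bool,
        Real.exp (∑ a, (l * (ζ a.1 * Helper77.SB.wt Q (grd n i) c a)) * y a)) (gau (Q × Bool)) :=
    hJ1.const_mul A⁻¹
  have hM2 : Integrable (fun y : Q × Bool → ℝ => Real.log A - 1 +
      A⁻¹ * ∑ i : Fin d → Fin n, ∑ c : Bool × Bool,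
        Real.exp (∑ a, (l * (ζ a.1 * Helper77.SB.wt Q (grd n i) c a)) * y a)) (gau (Q × Bool)) :=
    (integrable_const (Real.log A - 1)).add hM1
  have hM3 : Integrable (fun y : Q × Bool → ℝ => 2 * (l⁻¹ * (Real.log A - 1 +
      A⁻¹ * ∑ i : Fin d → Fin n, ∑ c : Bool × Bool,
        Real.exp (∑ a, (l * (ζ a.1 * Helper77.SB.wt Q (grd n i) c a)) * y a)))) (gau (Q × Bool)) :=
    (hM2.const_mul l⁻¹).const_mul 2
  have hM4 : Integrable (fun y : Q × Bool → ℝ => (∑ a : Q × Bool,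
      |ζ a.1| * (Real.exp (1 * y a) + Real.exp ((-1) * y a))) * (Q.card : ℝ)⁻¹)
      (gau (Q × Bool)) :=
    hL1.mul_const _
  have hgi : Integrable g (gau (Q × Bool)) := hM3.add hM4
  have hgI : ∫ y, g y ∂(gau (Q × Bool)) = 2 * (l⁻¹ * Real.log A) +
      4 * Real.exp (1 / 2) * (∑ k ∈ Q, |ζ k|) * (Q.card : ℝ)⁻¹ := by
    simp only [hg]
    rw [integral_add hM3 hM4, integral_const_mul, integral_const_mul,
      integral_add (integrable_const _) hM1, integral_const_mul, hJ2, integral_mul_const, hL2,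
      integral_const]
    simp only [probReal_univ, smul_eq_mul, one_mul]
    rw [inv_mul_cancel₀ hA0.ne']
    ring
  have hfin : ∫ y, supn Q (fun i => ζ i.1 * y i) ∂(gau (Q × Bool)) ≤
      ∫ y, g y ∂(gau (Q × Bool)) :=
    integral_mono_of_nonneg (Filter.Eventually.of_forall fun y => apply_nonneg _ _) hgi
      (Filter.Eventually.of_forall hdom)
  rw [hgI] at hfin
  refine hfin.trans ?_
  -- final estimate
  have hlogA : Real.log A = 2 * Real.log P := by
    rw [hA, Real.log_mul (by positivity) (by positivity), Real.log_exp, hl2]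
    ring
  have h1 : l⁻¹ * Real.log A = l * V := by
    rw [hlogA, ← hl2]
    field_simp
  have h2 : l * V ≤ Real.sqrt (2 * D) * Real.sqrt (V * (m + 1)) := by
    rw [← Real.sqrt_mul (by positivity)]
    apply Real.le_sqrt_of_sq_le
    calc (l * V) ^ 2 = (l ^ 2 * V) * V := by ring
      _ = 2 * Real.log P * V := by rw [hl2]
      _ ≤ 2 * (D * (m + 1)) * V := by gcongr
      _ = _ := by ring
  have h3 : (∑ k ∈ Q, |ζ k|) * (Q.card : ℝ)⁻¹ ≤ Real.sqrt (V * (m + 1)) := by
    apply Real.le_sqrt_of_sq_le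
    have h5 : (∑ k ∈ Q, |ζ k|) ^ 2 ≤ Q.card * V := by
      have := sq_sum_le_card_mul_sum_sq (s := Q) (f := fun k => |ζ k|)
      simpa [sq_abs, hV] using this
    have hm0 : (0 : ℝ) ≤ m := Nat.cast_nonneg m
    calc ((∑ k ∈ Q, |ζ k|) * (Q.card : ℝ)⁻¹) ^ 2
        = (∑ k ∈ Q, |ζ k|) ^ 2 * ((Q.card : ℝ)⁻¹) ^ 2 := by ring
      _ ≤ (Q.card * V) * ((Q.card : ℝ)⁻¹) ^ 2 := by gcongr
      _ = V * (Q.card : ℝ)⁻¹ := by field_simp
      _ ≤ V * 1 := by
          apply mul_le_mul_of_nonneg_left _ hV0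
          exact inv_le_one_of_one_le₀ hq1'
      _ ≤ V * (m + 1) := by
          apply mul_le_mul_of_nonneg_left _ hV0
          linarith
  rw [h1]
  have h4 : 0 < Real.exp (1 / 2) := Real.exp_pos _
  have h6 := mul_le_mul_of_nonneg_left h3 h4.le
  have h7 : 4 * Real.exp (1 / 2) * (∑ k ∈ Q, |ζ k|) * (Q.card : ℝ)⁻¹ =
    4 * (Real.exp (1 / 2) * ((∑ k ∈ Q, |ζ k|) * (Q.card : ℝ)⁻¹)) := by ring
  rw [h7]
  nlinarith

end Pool.Agent.Helper60.SB
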