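import Pool.Agent.Helper60.SB.Defs4

/-! M7 of MP_7fc85e_an: truncation. -/

open Finset MeasureTheory
open scoped ENNReal Real

namespace Pool.Agent.Helper60.SB

private lemma m7_prob1 : IsProbabilityMeasure tor1 := by
  constructor
  unfold tor1
  rw [Measure.smul_apply, Measure.restrict_apply_univ, Real.volume_Ico, sub_zero, smul_eq_mul]
  refine ENNReal.inv_mul_cancel ?_ ENNReal.ofReal_ne_top
  rw [Ne, ENNReal.ofReal_eq_zero, not_le]
  positivity

theorem trunc_Lp {d : ℕ} (p : ℝ) (hp : 2 < p) (h : (Fin d → ℝ) → ℂ)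
    (h1 : MemLp h (ENNReal.ofReal p) (tor d)) (h2 : eLpNorm h (ENNReal.ofReal p) (tor d) ≤ 1)
    (A : ℝ) (hA : 1 ≤ A) :
    ∃ g₁ g₂ : (Fin d → ℝ) → ℂ, (∀ x, h x = g₁ x + g₂ x) ∧ MemLp g₁ 2 (tor d) ∧
      MemLp g₂ 2 (tor d) ∧ (∀ x, ‖g₁ x‖ ≤ A) ∧ ∫ x, ‖g₂ x‖ ^ 2 ∂(tor d) ≤ A ^ (2 - p) := by
  haveI := m7_prob1
  haveI : IsProbabilityMeasure (tor d) := by unfold tor; infer_instance
  have hA0 : 0 < A := by linarith
  have hp0 : 0 < p := by linarith
  have hpne : ENNReal.ofReal p ≠ 0 := by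
    rw [Ne, ENNReal.ofReal_eq_zero, not_le]; exact hp0
  set s : Set (Fin d → ℝ) := {x | ‖h x‖ ≤ A} with hs
  have hsm : NullMeasurableSet s (tor d) :=
    nullMeasurableSet_le h1.1.norm.aemeasurable aemeasurable_const
  have hL2 : MemLp h 2 (tor d) := by
    refine h1.mono_exponent ?_
    rw [show (2 : ℝ≥0∞) = ENNReal.ofReal 2 by simp]
    exact ENNReal.ofReal_le_ofReal hp.le
  refine ⟨s.indicator h, sᶜ.indicator h, ?_, ?_, ?_, ?_, ?_⟩
  · intro x
    exact (Set.indicator_self_add_compl_apply s h x).symm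
  · refine MemLp.of_bound (h1.1.indicator₀ hsm) A (ae_of_all _ fun x => ?_)
    by_cases hx : x ∈ s
    · rw [Set.indicator_of_mem hx]; exact hx
    · rw [Set.indicator_of_notMem hx, norm_zero]; exact hA0.le
  · refine hL2.mono (h1.1.indicator₀ hsm.compl) (ae_of_all _ fun x => ?_)
    by_cases hx : x ∈ sᶜ
    · rw [Set.indicator_of_mem hx]
    · rw [Set.indicator_of_notMem hx, norm_zero]; exact norm_nonneg _
  · intro x
    by_cases hx : x ∈ s
    · rw [Set.indicator_of_mem hx]; exact hx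
    · rw [Set.indicator_of_notMem hx, norm_zero]; exact hA0.le
  · have hint : Integrable (fun x => ‖h x‖ ^ p) (tor d) := by
      have := h1.integrable_norm_rpow hpne ENNReal.ofReal_ne_top
      rwa [ENNReal.toReal_ofReal hp0.le] at this
    have hle1 : ∫ x, ‖h x‖ ^ p ∂(tor d) ≤ 1 := by
      rw [MemLp.eLpNorm_eq_integral_rpow_norm hpne ENNReal.ofReal_ne_top h1,
        ENNReal.toReal_ofReal hp0.le, ← ENNReal.ofReal_one] at h2
      have h3 := (ENNReal.ofReal_le_ofReal_iff zero_le_one).mp h2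
      by_contra hcon
      push Not at hcon
      have : (1 : ℝ) < (∫ x, ‖h x‖ ^ p ∂(tor d)) ^ (1 / p) :=
        Real.one_lt_rpow hcon (by positivity)
      have h4 : (∫ x, ‖h x‖ ^ p ∂(tor d)) ^ (p⁻¹) ≤ 1 := by simpa using h3
      rw [one_div] at this
      linarith
    calc ∫ x, ‖sᶜ.indicator h x‖ ^ 2 ∂(tor d)
        ≤ ∫ x, A ^ (2 - p) * ‖h x‖ ^ p ∂(tor d) := by
          refine integral_mono_of_nonneg (ae_of_all _ fun x => sq_nonneg _)
            (hint.const_mul _) (ae_of_all _ fun x => ?_)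
          show ‖sᶜ.indicator h x‖ ^ 2 ≤ A ^ (2 - p) * ‖h x‖ ^ p
          by_cases hx : x ∈ s
          · rw [Set.indicator_of_notMem (by simpa using hx), norm_zero]
            have h0 : (0 : ℝ) ^ 2 = 0 := by norm_num
            rw [h0]
            positivity
          · rw [Set.indicator_of_mem (by simpa using hx)]
            have hlt : A < ‖h x‖ := not_le.mp hx
            have hpos : 0 < ‖h x‖ := hA0.trans hlt
            have e1 : ‖h x‖ ^ 2 = ‖h x‖ ^ (2 - p) * ‖h x‖ ^ p := by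
              rw [← Real.rpow_add hpos]
              norm_num
            rw [e1]
            refine mul_le_mul_of_nonneg_right ?_ (by positivity)
            exact Real.rpow_le_rpow_of_nonpos hA0 hlt.le (by linarith)
      _ = A ^ (2 - p) * ∫ x, ‖h x‖ ^ p ∂(tor d) := integral_const_mul _ _
      _ ≤ A ^ (2 - p) * 1 := by
          refine mul_le_mul_of_nonneg_left hle1 (by positivity)
      _ = A ^ (2 - p) := mul_one _

end Pool.Agent.Helper60.SB
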