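import Pool.Agent.Helper60.SB.Defs4

/-! L11 of MP_7fc85e_an: moments of a sum of products. -/

open Finset MeasureTheory
open scoped ENNReal Real

namespace Pool.Agent.Helper60.SB

private lemma l11_prob1 : IsProbabilityMeasure tor1 := by
  constructor
  unfold tor1
  rw [Measure.smul_apply, Measure.restrict_apply_univ, Real.volume_Ico, sub_zero, smul_eq_mul]
  refine ENNReal.inv_mul_cancel ?_ ENNReal.ofReal_ne_top
  rw [Ne, ENNReal.ofReal_eq_zero, not_le]
  positivity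

private lemma l11_coord {q : ℕ} (hq : 1 ≤ q) (g : ℕ → ℝ → ℝ) (hg : ∀ s, Measurable (g s))
    (A : ℕ → ℝ) (hA : ∀ s x, |g s x| ≤ A s) (hA1 : ∀ s, ∫ x, |g s x| ∂tor1 ≤ A s / 2 ^ s)
    (σ : Fin q → ℕ) :
    ∫ x, ∏ i, |g (σ i) x| ∂tor1 ≤ (∏ i, A (σ i)) / 2 ^ (univ.sup σ) := by
  haveI := l11_prob1
  have hA0 : ∀ s, 0 ≤ A s := fun s => (abs_nonneg _).trans (hA s 0)
  haveI : Nonempty (Fin q) := ⟨⟨0, hq⟩⟩
  obtain ⟨i0, -, hi0⟩ := Finset.exists_mem_eq_sup (univ : Finset (Fin q)) univ_nonempty σ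
  have hint : ∀ s, Integrable (fun x => |g s x|) tor1 := fun s =>
    Integrable.of_bound (hg s).abs.aestronglyMeasurable (A s)
      (ae_of_all _ fun x => by rw [Real.norm_eq_abs, abs_abs]; exact hA s x)
  calc ∫ x, ∏ i, |g (σ i) x| ∂tor1
      ≤ ∫ x, (∏ i ∈ univ.erase i0, A (σ i)) * |g (σ i0) x| ∂tor1 := by
        refine integral_mono_of_nonneg (ae_of_all _ fun x =>
          Finset.prod_nonneg fun i _ => abs_nonneg _) ((hint _).const_mul _)
          (ae_of_all _ fun x => ?_)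
        show ∏ i, |g (σ i) x| ≤ (∏ i ∈ univ.erase i0, A (σ i)) * |g (σ i0) x|
        rw [← Finset.prod_erase_mul univ _ (mem_univ i0)]
        refine mul_le_mul_of_nonneg_right ?_ (abs_nonneg _)
        exact Finset.prod_le_prod (fun i _ => abs_nonneg _) (fun i _ => hA _ _)
    _ = (∏ i ∈ univ.erase i0, A (σ i)) * ∫ x, |g (σ i0) x| ∂tor1 := integral_const_mul _ _
    _ ≤ (∏ i ∈ univ.erase i0, A (σ i)) * (A (σ i0) / 2 ^ (σ i0)) :=
        mul_le_mul_of_nonneg_left (hA1 _) (Finset.prod_nonneg fun i _ => hA0 _)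
    _ = (∏ i, A (σ i)) / 2 ^ (univ.sup σ) := by
        rw [hi0, ← Finset.prod_erase_mul univ _ (mem_univ i0), mul_div_assoc]

theorem tuple_moment {d : ℕ} (q M : ℕ) (hq : 1 ≤ q) (Sh : Finset (Fin d → ℕ))
    (hSh : ∀ s ∈ Sh, ∀ j, s j ≤ M) (g : Fin d → ℕ → ℝ → ℝ) (hg : ∀ j s, Measurable (g j s))
    (A : ℕ → ℝ) (hA : ∀ j s x, |g j s x| ≤ A s)
    (hA1 : ∀ j s, ∫ x, |g j s x| ∂tor1 ≤ A s / 2 ^ s) :
    ∫ x, |∑ s ∈ Sh, ∏ j, g j (s j) (x j)| ^ q ∂(tor d) ≤
      ∑ t ∈ Fintype.piFinset (fun _ : Fin d => range (M + 1)),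
        (∑ s ∈ Sh.filter (fun s => ∀ j, s j ≤ t j), ∏ j, A (s j)) ^ q / 2 ^ (∑ j, t j) := by
  classical
  haveI := l11_prob1
  haveI : IsProbabilityMeasure (tor d) := by unfold tor; infer_instance
  rcases Nat.eq_zero_or_pos d with hd0 | hdpos
  · -- dimension zero
    subst hd0
    have hsimp : ∀ x : Fin 0 → ℝ, |∑ s ∈ Sh, ∏ j, g j (s j) (x j)| ^ q = (Sh.card : ℝ) ^ q := by
      intro x
      simp
    simp_rw [hsimp]
    rw [integral_const, probReal_univ, one_smul]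
    have : (Fintype.piFinset (fun _ : Fin 0 => range (M + 1))) = {fun _ => 0} := by
      ext t
      simp only [Fintype.mem_piFinset, IsEmpty.forall_iff, mem_singleton, true_iff]
      exact Subsingleton.elim _ _
    rw [this, Finset.sum_singleton]
    simp
  have hA0 : ∀ s, 0 ≤ A s := fun s => (abs_nonneg _).trans (hA ⟨0, hdpos⟩ s 0)
  -- expansion
  have hexp : ∀ x : Fin d → ℝ, |∑ s ∈ Sh, ∏ j, g j (s j) (x j)| ^ q ≤
      ∑ σ ∈ Fintype.piFinset (fun _ : Fin q => Sh), ∏ j, ∏ i, |g j (σ i j) (x j)| := by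
    intro x
    calc |∑ s ∈ Sh, ∏ j, g j (s j) (x j)| ^ q
        ≤ (∑ s ∈ Sh, ∏ j, |g j (s j) (x j)|) ^ q := by
          refine pow_le_pow_left₀ (abs_nonneg _) ?_ q
          refine (Finset.abs_sum_le_sum_abs _ _).trans (Finset.sum_le_sum fun s _ => ?_)
          rw [Finset.abs_prod]
      _ = ∏ _i : Fin q, ∑ s ∈ Sh, ∏ j, |g j (s j) (x j)| := by
          rw [Finset.prod_const, Finset.card_univ, Fintype.card_fin]
      _ = ∑ σ ∈ Fintype.piFinset (fun _ : Fin q => Sh), ∏ i, ∏ j, |g j (σ i j) (x j)| := by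
          rw [Finset.prod_univ_sum]
      _ = _ := Finset.sum_congr rfl fun σ _ => Finset.prod_comm
  have hmeas1 : ∀ (σ : Fin q → Fin d → ℕ) (j : Fin d),
      Measurable (fun y : ℝ => ∏ i, |g j (σ i j) y|) := by
    intro σ j
    exact Finset.measurable_prod _ (fun i _ => (hg j (σ i j)).abs)
  have hmeas : ∀ σ : Fin q → Fin d → ℕ,
      Measurable (fun x : Fin d → ℝ => ∏ j, ∏ i, |g j (σ i j) (x j)|) := by
    intro σ
    exact Finset.measurable_prod _ (fun j _ => (hmeas1 σ j).comp (measurable_pi_apply j))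
  have hintσ : ∀ σ : Fin q → Fin d → ℕ,
      Integrable (fun x : Fin d → ℝ => ∏ j, ∏ i, |g j (σ i j) (x j)|) (tor d) := by
    intro σ
    refine Integrable.of_bound (hmeas σ).aestronglyMeasurable (∏ j : Fin d, ∏ i, A (σ i j))
      (ae_of_all _ fun x => ?_)
    rw [Real.norm_eq_abs, abs_of_nonneg (Finset.prod_nonneg fun j _ =>
      Finset.prod_nonneg fun i _ => abs_nonneg _)]
    refine Finset.prod_le_prod (fun j _ => Finset.prod_nonneg fun i _ => abs_nonneg _)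
      (fun j _ => Finset.prod_le_prod (fun i _ => abs_nonneg _) (fun i _ => hA _ _ _))
  -- integration
  have hstep1 : ∫ x, |∑ s ∈ Sh, ∏ j, g j (s j) (x j)| ^ q ∂(tor d) ≤
      ∑ σ ∈ Fintype.piFinset (fun _ : Fin q => Sh),
        (∏ j, ∏ i, A (σ i j)) / 2 ^ (∑ j, univ.sup (fun i => σ i j)) := by
    calc ∫ x, |∑ s ∈ Sh, ∏ j, g j (s j) (x j)| ^ q ∂(tor d)
        ≤ ∫ x, ∑ σ ∈ Fintype.piFinset (fun _ : Fin q => Sh),
            ∏ j, ∏ i, |g j (σ i j) (x j)| ∂(tor d) :=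
          integral_mono_of_nonneg (ae_of_all _ fun x => pow_nonneg (abs_nonneg _) q)
            (integrable_finset_sum _ fun σ _ => hintσ σ) (ae_of_all _ hexp)
      _ = ∑ σ ∈ Fintype.piFinset (fun _ : Fin q => Sh),
            ∫ x, ∏ j, ∏ i, |g j (σ i j) (x j)| ∂(tor d) :=
          integral_finset_sum _ fun σ _ => hintσ σ
      _ ≤ _ := by
          refine Finset.sum_le_sum fun σ _ => ?_
          have : ∫ x : Fin d → ℝ, ∏ j, ∏ i, |g j (σ i j) (x j)| ∂(tor d) =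
              ∏ j, ∫ y, ∏ i, |g j (σ i j) y| ∂tor1 := by
            unfold tor
            exact integral_fintype_prod_eq_prod (𝕜 := ℝ)
              (fun j (y : ℝ) => ∏ i, |g j (σ i j) y|)
          rw [this]
          calc ∏ j, ∫ y, ∏ i, |g j (σ i j) y| ∂tor1
              ≤ ∏ j, ((∏ i, A (σ i j)) / 2 ^ (univ.sup (fun i => σ i j))) := by
                refine Finset.prod_le_prod (fun j _ => integral_nonneg fun y =>
                  Finset.prod_nonneg fun i _ => abs_nonneg _) (fun j _ => ?_)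
                exact l11_coord hq (g j) (hg j) A (hA j) (hA1 j) (fun i => σ i j)
            _ = (∏ j, ∏ i, A (σ i j)) / 2 ^ (∑ j, univ.sup (fun i => σ i j)) := by
                rw [Finset.prod_div_distrib, Finset.prod_pow_eq_pow_sum]
  refine hstep1.trans ?_
  -- grouping
  set T : Finset (Fin d → ℕ) := Fintype.piFinset (fun _ : Fin d => range (M + 1)) with hT
  have hmaps : ∀ σ ∈ Fintype.piFinset (fun _ : Fin q => Sh),
      (fun j => univ.sup (fun i => σ i j)) ∈ T := by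
    intro σ hσ
    rw [hT, Fintype.mem_piFinset]
    intro j
    rw [mem_range, Nat.lt_succ_iff]
    refine Finset.sup_le fun i _ => ?_
    exact hSh _ (Fintype.mem_piFinset.mp hσ i) j
  rw [← Finset.sum_fiberwise_of_maps_to hmaps]
  refine Finset.sum_le_sum fun t _ => ?_
  have hR : (∑ s ∈ Sh.filter (fun s => ∀ j, s j ≤ t j), ∏ j, A (s j)) ^ q =
      ∑ σ ∈ Fintype.piFinset (fun _ : Fin q => Sh.filter (fun s => ∀ j, s j ≤ t j)),
        ∏ j, ∏ i, A (σ i j) := by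
    calc (∑ s ∈ Sh.filter (fun s => ∀ j, s j ≤ t j), ∏ j, A (s j)) ^ q
        = ∏ _i : Fin q, ∑ s ∈ Sh.filter (fun s => ∀ j, s j ≤ t j), ∏ j, A (s j) := by
          rw [Finset.prod_const, Finset.card_univ, Fintype.card_fin]
      _ = ∑ σ ∈ Fintype.piFinset (fun _ : Fin q => Sh.filter (fun s => ∀ j, s j ≤ t j)),
            ∏ i, ∏ j, A (σ i j) := by rw [Finset.prod_univ_sum]
      _ = _ := Finset.sum_congr rfl fun σ _ => Finset.prod_comm
  rw [hR, Finset.sum_div]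
  refine (Finset.sum_le_sum (f := fun σ : Fin q → Fin d → ℕ =>
    (∏ j, ∏ i, A (σ i j)) / 2 ^ (∑ j, univ.sup (fun i => σ i j)))
    (g := fun σ : Fin q → Fin d → ℕ => (∏ j, ∏ i, A (σ i j)) / 2 ^ (∑ j, t j)) ?_).trans ?_
  · intro σ hσ
    have h1 := (mem_filter.mp hσ).2
    refine le_of_eq ?_
    show (∏ j, ∏ i, A (σ i j)) / 2 ^ (∑ j, univ.sup (fun i => σ i j)) = _
    rw [← h1]
  · refine Finset.sum_le_sum_of_subset_of_nonneg ?_ ?_
    · intro σ hσ
      obtain ⟨h1, h2⟩ := mem_filter.mp hσ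
      rw [Fintype.mem_piFinset] at h1 ⊢
      intro i
      rw [mem_filter]
      refine ⟨h1 i, fun j => ?_⟩
      rw [← h2]
      exact Finset.le_sup (f := fun i => σ i j) (mem_univ i)
    · intro σ _ _
      refine div_nonneg (Finset.prod_nonneg fun j _ => Finset.prod_nonneg fun i _ => hA0 _) ?_
      positivity

end Pool.Agent.Helper60.SB
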